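import Mathlib

namespace Pool.Agent.Results.MP_a127ec_co.Honeycomb

set_option linter.unusedSimpArgs false

open Finset Matrix

/-- `(A, B)` is a Lehman pair of type `(n, r, s)`, where `n` is the number of elements of the index
set `ι` and `k = r s - n`. -/
structure IsLehmanPair {ι : Type} [Fintype ι] [DecidableEq ι] (A B : Matrix ι ι ℤ) (r s k : ℕ) :
    Prop where
  zero_one_left : ∀ i j, A i j = 0 ∨ A i j = 1
  zero_one_right : ∀ i j, B i j = 0 ∨ B i j = 1
  row_left : ∀ i, ∑ j, A i j = r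
  col_left : ∀ j, ∑ i, A i j = r
  row_right : ∀ i, ∑ j, B i j = s
  col_right : ∀ j, ∑ i, B i j = s
  mul : A * Bᵀ = (Matrix.of fun _ _ => 1) + (k : ℤ) • (1 : Matrix ι ι ℤ)
  type : r * s = Fintype.card ι + k
  pos : 1 ≤ k

section general

variable {ι : Type} [Fintype ι] [DecidableEq ι]

lemma sum_three (f g : ι → ℤ) (h01 : ∀ y, f y = 0 ∨ f y = 1) (hs : ∑ y, f y = 3) {a b c : ι}
    (hab : a ≠ b) (hac : a ≠ c) (hbc : b ≠ c) (ha : f a = 1) (hb : f b = 1) (hc : f c = 1) :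
    ∑ y, f y * g y = g a + g b + g c := by
  have h1 : ∑ y ∈ ({a, b, c} : Finset ι), f y = 3 := by
    rw [sum_insert (by simp [hab, hac]), sum_insert (by simp [hbc]), sum_singleton, ha, hb, hc]
    norm_num
  have h2 : ∑ y ∈ univ \ ({a, b, c} : Finset ι), f y = 0 := by
    have := sum_sdiff (f := f) (subset_univ ({a, b, c} : Finset ι))
    omega
  have h3 : ∀ y ∈ univ \ ({a, b, c} : Finset ι), f y = 0 :=
    (sum_eq_zero_iff_of_nonneg fun y _ => by rcases h01 y with h | h <;> omega).mp h2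
  have h4 : ∑ y, f y * g y = ∑ y ∈ ({a, b, c} : Finset ι), f y * g y := by
    symm
    refine sum_subset (subset_univ _) fun y _ hy => ?_
    rw [h3 y (by rw [mem_sdiff]; exact ⟨mem_univ _, hy⟩), zero_mul]
  rw [h4, sum_insert (by simp [hab, hac]), sum_insert (by simp [hbc]), sum_singleton, ha, hb, hc]
  ring

variable {A B : Matrix ι ι ℤ} {s : ℕ}

/-- `|L_x ∩ S_x'| = 1`, or `2` if `x = x'`. -/
lemma meet (h : IsLehmanPair A B 3 s 1) (x x' : ι) :
    ∑ y, A x y * B x' y = 1 + if x = x' then 1 else 0 := by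
  have h1 := congrFun (congrFun h.mul x) x'
  rw [Matrix.mul_apply] at h1
  simp only [Matrix.transpose_apply, Matrix.add_apply, Matrix.of_apply, Matrix.smul_apply,
    Matrix.one_apply, Nat.cast_one, smul_eq_mul, one_mul] at h1
  exact h1

/-- The dual identity `Aᵀ B = J + I`. -/
lemma dual (h : IsLehmanPair A B 3 s 1) (x y : ι) :
    ∑ i, A i x * B i y = 1 + if x = y then 1 else 0 := by
  set J : Matrix ι ι ℚ := Matrix.of fun _ _ => 1 with hJ
  set A' : Matrix ι ι ℚ := A.map (fun z : ℤ => (z : ℚ)) with hA'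
  set B' : Matrix ι ι ℚ := B.map (fun z : ℤ => (z : ℚ)) with hB'
  have hn : (0 : ℚ) < (Fintype.card ι : ℚ) + 1 := by positivity
  have h1 : A' * B'ᵀ = J + 1 := by
    ext x x'
    rw [Matrix.mul_apply]
    have h2 := congrArg (fun z : ℤ => (z : ℚ)) (meet h x x')
    push_cast at h2
    simp only [hA', hB', hJ, Matrix.map_apply, Matrix.transpose_apply, Matrix.add_apply,
      Matrix.of_apply, Matrix.one_apply]
    exact h2
  have hJJ : J * J = (Fintype.card ι : ℚ) • J := by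
    ext x y
    simp [hJ, Matrix.mul_apply]
  have hJA : J * A' = (3 : ℚ) • J := by
    ext x y
    have h2 := congrArg (fun z : ℤ => (z : ℚ)) (h.col_left y)
    push_cast at h2
    simp only [hJ, hA', Matrix.mul_apply, Matrix.map_apply, Matrix.of_apply, one_mul,
      Matrix.smul_apply, smul_eq_mul, mul_one]
    rw [h2]
  have hBJ : B'ᵀ * J = (s : ℚ) • J := by
    ext x y
    have h2 := congrArg (fun z : ℤ => (z : ℚ)) (h.col_right x)
    push_cast at h2
    simp only [hJ, hB', Matrix.mul_apply, Matrix.map_apply, Matrix.of_apply, mul_one,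
      Matrix.transpose_apply, Matrix.smul_apply, smul_eq_mul]
    rw [h2]
  set c : ℚ := ((Fintype.card ι : ℚ) + 1)⁻¹ with hc
  have h2 : (J + 1) * (1 - c • J) = 1 := by
    rw [Matrix.mul_sub, Matrix.mul_one, Matrix.mul_smul, Matrix.add_mul, Matrix.one_mul, hJJ]
    have h3 : (Fintype.card ι : ℚ) • J + J = ((Fintype.card ι : ℚ) + 1) • J := by
      rw [add_smul, one_smul]
    rw [h3, smul_smul, hc, inv_mul_cancel₀ hn.ne', one_smul, add_sub_cancel_left]
  have h3 : A' * (B'ᵀ * (1 - c • J)) = 1 := by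
    rw [← Matrix.mul_assoc, h1, h2]
  have h4 := mul_eq_one_comm.mp h3
  rw [Matrix.mul_sub, Matrix.mul_one, Matrix.mul_smul, hBJ, Matrix.sub_mul, Matrix.smul_mul,
    Matrix.smul_mul, hJA, smul_smul, smul_smul] at h4
  have h5 : c * s * 3 = 1 := by
    have h6 : (3 : ℚ) * s = (Fintype.card ι : ℚ) + 1 := by exact_mod_cast h.type
    rw [mul_assoc, mul_comm (s : ℚ), h6, hc, inv_mul_cancel₀ hn.ne']
  rw [h5, one_smul, sub_eq_iff_eq_add] at h4
  have h6 := congrFun (congrFun h4 y) x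
  rw [Matrix.mul_apply] at h6
  simp only [hA', hB', hJ, Matrix.map_apply, Matrix.transpose_apply, Matrix.add_apply,
    Matrix.of_apply, Matrix.one_apply] at h6
  have h7 : (((∑ i, A i x * B i y : ℤ)) : ℚ) = ((1 + if x = y then 1 else 0 : ℤ) : ℚ) := by
    push_cast
    rw [add_comm (1 : ℚ), show (if x = y then (1 : ℚ) else 0) = if y = x then 1 else 0 by
      simp only [eq_comm], ← h6]
    exact sum_congr rfl fun i _ => mul_comm _ _
  exact_mod_cast h7

/-- The transposed pair. -/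
lemma transpose (h : IsLehmanPair A B 3 s 1) : IsLehmanPair Aᵀ Bᵀ 3 s 1 := by
  refine ⟨fun i j => h.zero_one_left j i, fun i j => h.zero_one_right j i, h.col_left, h.row_left,
    h.col_right, h.row_right, ?_, h.type, h.pos⟩
  ext x y
  rw [Matrix.mul_apply]
  simp only [Matrix.transpose_apply, Matrix.add_apply, Matrix.of_apply, Matrix.smul_apply,
    Matrix.one_apply, Nat.cast_one, smul_eq_mul, one_mul]
  exact dual h x y

lemma pair_le (h : IsLehmanPair A B 3 s 1) {x x' y z : ι} (hx : x ≠ x') (hyz : y ≠ z)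
    (hy : A x y = 1) (hz : A x z = 1) : B x' y + B x' z ≤ 1 := by
  have h1 := meet h x x'
  rw [if_neg hx, add_zero] at h1
  rw [← h1]
  have h2 : ∑ t ∈ ({y, z} : Finset ι), A x t * B x' t = B x' y + B x' z := by
    rw [sum_pair hyz, hy, hz, one_mul, one_mul]
  rw [← h2]
  refine sum_le_sum_of_subset_of_nonneg (subset_univ _) fun t _ _ => ?_
  rcases h.zero_one_left x t with h3 | h3 <;> rcases h.zero_one_right x' t with h4 | h4 <;>
    rw [h3, h4] <;> norm_num

/-- The local contradiction, when the row `i` is the one with `m ∉ S_i`. -/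
lemma contra (h : IsLehmanPair A B 3 s 1) {i j k u v w m a a' b b' c c' : ι}
    (hij : i ≠ j) (hik : i ≠ k) (hiu : u ≠ i) (hiv : v ≠ i) (hiw : w ≠ i)
    (hma : m ≠ a) (hma' : m ≠ a') (haa : a ≠ a') (hmb : m ≠ b) (hmb' : m ≠ b') (hbb : b ≠ b')
    (hmc : m ≠ c) (hmc' : m ≠ c') (hcc : c ≠ c') (hab : a' ≠ b) (hbc : b' ≠ c) (hca : c' ≠ a)
    (i1 : A i m = 1) (i2 : A i a = 1) (i3 : A i a' = 1)
    (j1 : A j m = 1) (j2 : A j b = 1) (j3 : A j b' = 1)
    (k1 : A k m = 1) (k2 : A k c = 1) (k3 : A k c' = 1)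
    (u1 : A u a' = 1) (u2 : A u b = 1) (v1 : A v b' = 1) (v2 : A v c = 1)
    (w1 : A w c' = 1) (w2 : A w a = 1) (h0 : B i m = 0) : False := by
  have e1 := sum_three (A i) (B i) (h.zero_one_left i) (by exact_mod_cast h.row_left i)
    hma hma' haa i1 i2 i3
  have e2 := sum_three (A j) (B i) (h.zero_one_left j) (by exact_mod_cast h.row_left j)
    hmb hmb' hbb j1 j2 j3
  have e3 := sum_three (A k) (B i) (h.zero_one_left k) (by exact_mod_cast h.row_left k)
    hmc hmc' hcc k1 k2 k3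
  rw [meet h, if_pos rfl] at e1
  rw [meet h, if_neg hij.symm] at e2
  rw [meet h, if_neg hik.symm] at e3
  have f1 := pair_le h hiu hab u1 u2
  have f2 := pair_le h hiv hbc v1 v2
  have f3 := pair_le h hiw hca w1 w2
  have g1 := h.zero_one_right i a
  have g2 := h.zero_one_right i a'
  have g3 := h.zero_one_right i b
  have g4 := h.zero_one_right i b'
  have g5 := h.zero_one_right i c
  have g6 := h.zero_one_right i c'
  omega

end general

/-- The column `m` has a honeycomb neighbourhood in the bipartite graph of `A`: its three rows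
`i, j, k` have the further columns `a, a'`, `b, b'` and `c, c'`, and there are three more rows
`u, v, w` joining `a'` to `b`, `b'` to `c` and `c'` to `a`; so `m` lies on three hexagons which
pairwise share exactly one of the edges at `m`. -/
def HoneycombAt {ι : Type} (A : Matrix ι ι ℤ) (m : ι) : Prop :=
  ∃ i j k u v w a a' b b' c c' : ι,
    [i, j, k, u, v, w].Nodup ∧ [m, a, a', b, b', c, c'].Nodup ∧
    (A i m = 1 ∧ A i a = 1 ∧ A i a' = 1) ∧ (A j m = 1 ∧ A j b = 1 ∧ A j b' = 1) ∧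
    (A k m = 1 ∧ A k c = 1 ∧ A k c' = 1) ∧
    (A u a' = 1 ∧ A u b = 1) ∧ (A v b' = 1 ∧ A v c = 1) ∧ (A w c' = 1 ∧ A w a = 1)

lemma not_honeycomb {ι : Type} [Fintype ι] [DecidableEq ι] {A B : Matrix ι ι ℤ} {s : ℕ}
    (h : IsLehmanPair A B 3 s 1) (m : ι) : ¬ HoneycombAt A m := by
  rintro ⟨i, j, k, u, v, w, a, a', b, b', c, c', hr, hc, ⟨i1, i2, i3⟩, ⟨j1, j2, j3⟩, ⟨k1, k2, k3⟩,
    ⟨u1, u2⟩, ⟨v1, v2⟩, w1, w2⟩
  simp only [List.nodup_cons, List.mem_cons, List.not_mem_nil, or_false, not_or,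
    List.nodup_nil, and_true, not_false_eq_true] at hr hc
  obtain ⟨⟨ij, ik, iu, iv, iw⟩, ⟨jk, ju, jv, jw⟩, ⟨ku, kv, kw⟩, -⟩ := hr
  obtain ⟨⟨ma, ma', mb, mb', mc, mc'⟩, ⟨aa, ab, ab', ac, ac'⟩, ⟨ab2, ab3, ac2, ac3⟩,
    ⟨bb, bc, bc'⟩, ⟨bc2, bc3⟩, cc⟩ := hc
  have h1 := sum_three (fun x => A x m) (fun x => B x m) (fun x => h.zero_one_left x m)
    (by exact_mod_cast h.col_left m) ij ik jk i1 j1 k1
  rw [dual h, if_pos rfl] at h1
  have g1 := h.zero_one_right i m
  have g2 := h.zero_one_right j m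
  have g3 := h.zero_one_right k m
  rcases g1 with g1 | g1
  · exact contra h ij ik (Ne.symm iu) (Ne.symm iv) (Ne.symm iw) ma ma' aa mb mb' bb mc mc' cc ab2
      bc2 (Ne.symm ac') i1 i2 i3 j1 j2 j3 k1 k2 k3 u1 u2 v1 v2 w1 w2 g1
  · rcases g2 with g2 | g2
    · exact contra h jk (Ne.symm ij) (Ne.symm jv) (Ne.symm jw) (Ne.symm ju) mb mb' bb mc mc' cc
        ma ma' aa bc2 (Ne.symm ac') ab2 j1 j2 j3 k1 k2 k3 i1 i2 i3 v1 v2 w1 w2 u1 u2 g2
    · have g4 : B k m = 0 := by omega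
      exact contra h (Ne.symm ik) (Ne.symm jk) (Ne.symm kw) (Ne.symm ku) (Ne.symm kv) mc mc' cc
        ma ma' aa mb mb' bb (Ne.symm ac') ab2 bc2 k1 k2 k3 i1 i2 i3 j1 j2 j3 w1 w2 u1 u2 v1 v2 g4

/-- No vertex (column or row) of a cubic Lehman graph with `k = 1` has a honeycomb neighbourhood. -/
theorem result (ι : Type) [Fintype ι] [DecidableEq ι] (A B : Matrix ι ι ℤ) (s : ℕ)
    (h : IsLehmanPair A B 3 s 1) (m : ι) : ¬ HoneycombAt A m ∧ ¬ HoneycombAt Aᵀ m :=
  ⟨not_honeycomb h m, not_honeycomb (transpose h) m⟩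

end Pool.Agent.Results.MP_a127ec_co.Honeycomb
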