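import Mathlib
import Pool.Agent.Results.MP_a127ec_co.Honeycomb

namespace Pool.Agent.Results.MP_a127ec_co.AbelianHaar

set_option linter.unusedSimpArgs false

open Finset Matrix
open Pool.Agent.Results.MP_a127ec_co.Honeycomb

/-- The bipartite graph (rows versus columns) with biadjacency matrix `A`. -/
def bip {ι : Type} (A : Matrix ι ι ℤ) : SimpleGraph (ι ⊕ ι) where
  Adj u v := match u, v with
    | Sum.inl i, Sum.inr j => A i j = 1
    | Sum.inr j, Sum.inl i => A i j = 1
    | _, _ => False
  symm := ⟨by rintro (i | i) (j | j) h <;> exact h⟩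
  loopless := ⟨by rintro (i | i) h <;> exact h⟩

/-- Two rows with two common ones give a `4`-cycle. -/
lemma egirth_le {ι : Type} (A : Matrix ι ι ℤ) {i i' j j' : ι} (hi : i ≠ i') (hj : j ≠ j')
    (h1 : A i j = 1) (h2 : A i' j = 1) (h3 : A i' j' = 1) (h4 : A i j' = 1) :
    (bip A).egirth ≤ 4 := by
  have e1 : (bip A).Adj (Sum.inl i) (Sum.inr j) := h1
  have e2 : (bip A).Adj (Sum.inr j) (Sum.inl i') := h2
  have e3 : (bip A).Adj (Sum.inl i') (Sum.inr j') := h3
  have e4 : (bip A).Adj (Sum.inr j') (Sum.inl i) := h4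
  have hc : (SimpleGraph.Walk.cons e1 (SimpleGraph.Walk.cons e2 (SimpleGraph.Walk.cons e3
      (SimpleGraph.Walk.cons e4 SimpleGraph.Walk.nil)))).IsCycle := by
    rw [SimpleGraph.Walk.cons_isCycle_iff]
    constructor
    · simp [SimpleGraph.Walk.isPath_def, hi, hi.symm, hj, hj.symm]
    · simp [hi, hi.symm, hj, hj.symm]
  have := SimpleGraph.egirth_le_length hc
  simpa using this

/-- The heart of the argument: a function on an abelian group with values `0` and `1` whose sums over
the translates of `{0, p, q}` are all `1`, except that the sum over `{0, p, q}` itself is `2`. -/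
lemma core {G : Type} [AddCommGroup G] (F : G → ℤ) (h01 : ∀ u, F u = 0 ∨ F u = 1) (p q : G)
    (h2 : F 0 + F p + F q = 2) (h1 : ∀ u, u ≠ 0 → F u + F (u + p) + F (u + q) = 1)
    (h0 : F 0 = 0) : p + q = 0 := by
  have key : ∀ u, F u = 1 → F (u - (p + q)) = 1 := by
    intro u hu
    have hp : F (u - p) = 0 := by
      by_cases h : u = p
      · rw [h, sub_self, h0]
      · have h3 := h1 (u - p) (sub_ne_zero.mpr h)
        rw [sub_add_cancel, hu] at h3
        rcases h01 (u - p) with h4 | h4 <;> rcases h01 (u - p + q) with h5 | h5 <;>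
          rw [h4, h5] at h3 <;> first | exact h4 | omega
    have hq : F (u - q) = 0 := by
      by_cases h : u = q
      · rw [h, sub_self, h0]
      · have h3 := h1 (u - q) (sub_ne_zero.mpr h)
        rw [sub_add_cancel, hu] at h3
        rcases h01 (u - q) with h4 | h4 <;> rcases h01 (u - q + p) with h5 | h5 <;>
          rw [h4, h5] at h3 <;> first | exact h4 | omega
    have e1 : u - (p + q) + p = u - q := by abel
    have e2 : u - (p + q) + q = u - p := by abel
    by_cases h : u - (p + q) = 0
    · exfalso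
      rw [h, zero_add] at e1 e2
      have h3 : F p = 0 := by rw [e1]; exact hq
      have h4 : F q = 0 := by rw [e2]; exact hp
      rw [h0, h3, h4] at h2
      omega
    · have h3 := h1 _ h
      rw [e1, e2, hp, hq] at h3
      omega
  have hp : F p = 1 := by
    rcases h01 p with h | h
    · rcases h01 q with h' | h' <;> rw [h0, h, h'] at h2 <;> omega
    · exact h
  have hq : F q = 1 := by
    rw [h0, hp] at h2
    omega
  by_contra hne
  have h3 := h1 (-(p + q)) (neg_ne_zero.mpr hne)
  have h4 := key p hp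
  have h5 := key q hq
  rw [show -(p + q) + p = p - (p + q) by abel, show -(p + q) + q = q - (p + q) by abel, h4, h5] at h3
  rcases h01 (-(p + q)) with h6 | h6 <;> rw [h6] at h3 <;> omega

section abelian

variable {G : Type} [AddCommGroup G] [Fintype G] [DecidableEq G] {A B : Matrix G G ℤ} {s : ℕ}

lemma ap (h : IsLehmanPair A B 3 s 1) (hA : ∀ g x y, A (x + g) (y + g) = A x y) {a b c : G}
    (hab : a ≠ b) (hac : a ≠ c) (hbc : b ≠ c) (ha : A 0 a = 1) (hb : A 0 b = 1) (hc : A 0 c = 1)
    (h0 : B 0 a = 0) :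
    ∃ x x' y y' : G, x ≠ x' ∧ y ≠ y' ∧ A x y = 1 ∧ A x' y = 1 ∧ A x' y' = 1 ∧ A x y' = 1 := by
  have hu : ∀ u, B 0 (u + a) + B 0 (u + b) + B 0 (u + c) = 1 + if u = 0 then 1 else 0 := by
    intro u
    rw [← meet h u 0]
    symm
    have e : ∀ z, A 0 z = 1 → A u (u + z) = 1 := by
      intro z hz
      have := hA u 0 z
      rw [zero_add, add_comm z u, hz] at this
      exact this
    exact sum_three (A u) (B 0) (h.zero_one_left u) (by exact_mod_cast h.row_left u)
      (by simpa using hab) (by simpa using hac) (by simpa using hbc) (e a ha) (e b hb) (e c hc)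
  have h1 := core (fun u => B 0 (u + a)) (fun u => h.zero_one_right 0 (u + a)) (b - a) (c - a)
    (by
      have := hu 0
      simp only [zero_add, if_true] at this ⊢
      rw [sub_add_cancel, sub_add_cancel]
      omega)
    (by
      intro u hne
      have := hu u
      rw [if_neg hne, add_zero] at this
      show B 0 (u + a) + B 0 (u + (b - a) + a) + B 0 (u + (c - a) + a) = 1
      rw [show u + (b - a) + a = u + b by abel, show u + (c - a) + a = u + c by abel]
      exact this)
    (by simpa using h0)
  have h2 : a - b + a = c := by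
    have : c = a - (b - a) := by
      rw [eq_sub_iff_add_eq]
      have : c + (b - a) = (b - a + (c - a)) + a := by abel
      rw [this, h1, zero_add]
    rw [this]
    abel
  refine ⟨0, a - b, a, c, ?_, hac, ha, ?_, ?_, hc⟩
  · intro h3
    exact hab (sub_eq_zero.mp h3.symm)
  · have := hA (a - b) 0 b
    rw [zero_add, add_sub_cancel, hb] at this
    exact this
  · have := hA (a - b) 0 a
    rw [zero_add, add_comm a (a - b), h2, ha] at this
    exact this

lemma abelian (h : IsLehmanPair A B 3 s 1) (hA : ∀ g x y, A (x + g) (y + g) = A x y) :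
    ∃ x x' y y' : G, x ≠ x' ∧ y ≠ y' ∧ A x y = 1 ∧ A x' y = 1 ∧ A x' y' = 1 ∧ A x y' = 1 := by
  have hcard : (univ.filter fun y => A 0 y = 1).card = 3 := by
    have h1 : ∑ y, A 0 y = ∑ y, if A 0 y = 1 then (1 : ℤ) else 0 := by
      refine sum_congr rfl fun y _ => ?_
      rcases h.zero_one_left 0 y with h2 | h2 <;> simp [h2]
    rw [h.row_left 0, ← Finset.sum_filter, Finset.sum_const, nsmul_eq_mul, mul_one] at h1
    exact_mod_cast h1.symm
  obtain ⟨a, b, c, hab, hac, hbc, hs⟩ := card_eq_three.mp hcard
  have hm : ∀ y, y ∈ ({a, b, c} : Finset G) → A 0 y = 1 := by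
    intro y hy
    rw [← hs, mem_filter] at hy
    exact hy.2
  have ha := hm a (by simp)
  have hb := hm b (by simp)
  have hc := hm c (by simp)
  have h2 := sum_three (A 0) (B 0) (h.zero_one_left 0) (by exact_mod_cast h.row_left 0) hab hac hbc
    ha hb hc
  rw [meet h, if_pos rfl] at h2
  rcases h.zero_one_right 0 a with h3 | h3
  · exact ap h hA hab hac hbc ha hb hc h3
  · rcases h.zero_one_right 0 b with h4 | h4
    · exact ap h hA hab.symm hbc hac hb ha hc h4
    · have h5 : B 0 c = 0 := by omega
      exact ap h hA hac.symm hbc.symm hab hc ha hb h5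

end abelian

/-- If an abelian group acts regularly on the rows and on the columns of a cubic Lehman matrix with
`k = 1`, preserving the matrix, then the Lehman graph contains a `4`-cycle. -/
theorem result (G : Type) [AddCommGroup G] [Fintype G] [DecidableEq G] (A B : Matrix G G ℤ) (s : ℕ)
    (h : IsLehmanPair A B 3 s 1) (hA : ∀ g x y, A (x + g) (y + g) = A x y) :
    (∃ x x' y y' : G, x ≠ x' ∧ y ≠ y' ∧ A x y = 1 ∧ A x' y = 1 ∧ A x' y' = 1 ∧ A x y' = 1) ∧
      (bip A).egirth ≤ 4 := by
  obtain ⟨x, x', y, y', h1, h2, h3, h4, h5, h6⟩ := abelian h hA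
  exact ⟨⟨x, x', y, y', h1, h2, h3, h4, h5, h6⟩, egirth_le A h1 h2 h3 h4 h5 h6⟩

end Pool.Agent.Results.MP_a127ec_co.AbelianHaar
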