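import Mathlib
import Pool.Agent.Results.MP_a127ec_co.Honeycomb

namespace Pool.Agent.Results.MP_a127ec_co.AlternatingHexagon

open Finset Matrix
open Pool.Agent.Results.MP_a127ec_co.Honeycomb

variable {ι : Type} [Fintype ι] [DecidableEq ι] {A B : Matrix ι ι ℤ} {s : ℕ}

lemma third (h : IsLehmanPair A B 3 s 1) {i a b : ι} (hab : a ≠ b) (ha : A i a = 1)
    (hb : A i b = 1) : ∃ c, c ≠ a ∧ c ≠ b ∧ A i c = 1 := by
  by_contra hno
  push Not at hno
  have h1 : ∑ y, A i y = ∑ y ∈ ({a, b} : Finset ι), A i y := by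
    symm
    refine sum_subset (subset_univ _) fun y _ hy => ?_
    rw [mem_insert, mem_singleton, not_or] at hy
    rcases h.zero_one_left i y with h2 | h2
    · exact h2
    · exact absurd h2 (hno y hy.1 hy.2)
  rw [h.row_left i, sum_pair hab, ha, hb] at h1
  norm_num at h1

/-- The edges `(i, x)` of a cubic Lehman graph with `k = 1` with `B i x = 0` (they form a perfect
matching) have no alternating `6`-cycle: in a hexagon `x₁ l₁ x₂ l₂ x₃ l₃` the three edges `l₁ x₂`,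
`l₂ x₃`, `l₃ x₁` are not all of this kind. -/
theorem result (ι : Type) [Fintype ι] [DecidableEq ι] (A B : Matrix ι ι ℤ) (s : ℕ)
    (h : IsLehmanPair A B 3 s 1) (l₁ l₂ l₃ x₁ x₂ x₃ : ι) (h12 : l₁ ≠ l₂) (h13 : l₁ ≠ l₃)
    (_h23 : l₂ ≠ l₃) (g12 : x₁ ≠ x₂) (g13 : x₁ ≠ x₃) (g23 : x₂ ≠ x₃)
    (a1 : A l₁ x₁ = 1) (a2 : A l₁ x₂ = 1) (a3 : A l₂ x₂ = 1) (a4 : A l₂ x₃ = 1)
    (a5 : A l₃ x₃ = 1) (a6 : A l₃ x₁ = 1) :
    ¬ (B l₁ x₂ = 0 ∧ B l₂ x₃ = 0 ∧ B l₃ x₁ = 0) := by
  rintro ⟨b1, b2, b3⟩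
  obtain ⟨y, hy2, hy3, hy⟩ := third h g23 a3 a4
  -- row `l₂ = {x₂, x₃, y}`
  have e2 : ∀ j, B j x₂ + B j x₃ + B j y = 1 + if l₂ = j then 1 else 0 := by
    intro j
    rw [← meet h l₂ j]
    exact (sum_three (A l₂) (B j) (h.zero_one_left l₂) (by exact_mod_cast h.row_left l₂) g23
      hy2.symm hy3.symm a3 a4 hy).symm
  have p1 : ∀ j, l₁ ≠ j → B j x₁ + B j x₂ ≤ 1 := fun j hj => pair_le h hj g12 a1 a2
  have p3 : ∀ j, l₃ ≠ j → B j x₃ + B j x₁ ≤ 1 := fun j hj => pair_le h hj g13.symm a5 a6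
  have p2 : ∀ j, l₂ ≠ j → B j x₂ + B j x₃ ≤ 1 := fun j hj => pair_le h hj g23 a3 a4
  have key : ∀ j, 0 ≤ B j y - B j x₁ := by
    intro j
    have z1 := h.zero_one_right j x₁
    have z2 := h.zero_one_right j x₂
    have z3 := h.zero_one_right j x₃
    have z4 := h.zero_one_right j y
    have e := e2 j
    by_cases j1 : l₁ = j
    · subst j1
      rw [if_neg h12.symm] at e
      have := p3 l₁ h13.symm
      omega
    · by_cases j3 : l₃ = j
      · subst j3
        omega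
      · have q1 := p1 j j1
        have q3 := p3 j j3
        by_cases j2 : l₂ = j
        · subst j2
          rw [if_pos rfl] at e
          omega
        · rw [if_neg j2] at e
          omega
  have hsum : ∑ j, (B j y - B j x₁) = 0 := by
    rw [sum_sub_distrib, h.col_right, h.col_right, sub_self]
  have h0 := (sum_eq_zero_iff_of_nonneg fun j _ => key j).mp hsum l₂ (mem_univ _)
  -- but at `l₂` the difference is `1`
  have e := e2 l₂
  rw [if_pos rfl, b2] at e
  have z1 := h.zero_one_right l₂ x₁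
  have z2 := h.zero_one_right l₂ x₂
  have z4 := h.zero_one_right l₂ y
  have q1 := p1 l₂ h12
  omega

end Pool.Agent.Results.MP_a127ec_co.AlternatingHexagon
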